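import Pool.Agent.L7h37.MW.Step

set_option autoImplicit false

/-! # Project MW (helper88), part FTT (helper37) -/

namespace Pool.Agent.L7h37.MW

open Finset MeasureTheory Filter Topology
open scoped ENNReal
open Pool.Agent.H376R2.MR (er)
open Pool.Agent.N798.T (vl)
open Pool.Agent.N539.T (nrm_er cont_er ea hd_ea nrm_ea dens_bd)
open Pool.Agent.L7h88.MW

/-- the indicator function of the primes, shifted -/
noncomputable def Fb (b : ℤ) (n : ℤ) : ℂ := if ((n + b).toNat).Prime then 1 else 0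

theorem Fb_le (b n : ℤ) : ‖Fb b n‖ ≤ 1 := by
  unfold Fb
  split_ifs <;> simp

theorem cont_DS (f : ℕ → ℂ) (s : Finset ℕ) : Continuous (DS f s) := by
  unfold DS er
  fun_prop

theorem ii_dens (η p q : ℝ) (hp : 0 < p) (hq : 0 < q) :
    IntervalIntegrable (fun y : ℝ => ((1 / y : ℝ) : ℂ) * er η y) volume p q := by
  refine ContinuousOn.intervalIntegrable ?_
  refine ContinuousOn.mul (Complex.continuous_ofReal.comp_continuousOn ?_) (cont_er _).continuousOn
  refine ContinuousOn.div continuousOn_const continuousOn_id ?_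
  intro x hx
  have h1 : min p q ≤ x := hx.1
  have h2 : 0 < min p q := lt_min hp hq
  show x ≠ 0
  linarith

theorem hw_split (b : ℤ) (η p q : ℝ) (hp : 0 < p) (hq : 0 < q) :
    ∫ y in p..q, hw b y * er η y = (∫ y in p..q, Fb b ⌊Real.exp y⌋ * er η y) -
      ∫ y in p..q, ((1 / y : ℝ) : ℂ) * er η y := by
  rw [← intervalIntegral.integral_sub (ii_stepK (Fb b) 1 (Fb_le b) η p q) (ii_dens η p q hp hq)]
  refine intervalIntegral.integral_congr fun y _ => ?_
  unfold hw Fb vl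
  rw [sub_mul]

theorem Ge_ea (η : ℝ) (hη : η ≠ 0) (u v : ℝ) : Ge η v - Ge η u = ea η v - ea η u := by
  rw [← Ge_sub]
  exact intervalIntegral.integral_eq_sub_of_hasDerivAt (fun x _ => hd_ea η x hη)
    ((cont_er η).intervalIntegrable _ _)

theorem hw_bd (b : ℤ) (y1 y2 η : ℝ) (h1 : 1 ≤ y1) (h12 : y1 ≤ y2) (hη : η ≠ 0) (p k : ℕ)
    (hp1 : (p : ℝ) ≤ Real.exp y1) (hp2 : Real.exp y1 ≤ p + 1) (hq1 : (p : ℝ) + k ≤ Real.exp y2)
    (hq2 : Real.exp y2 ≤ p + k + 1) :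
    ‖∫ y in y1..y2, hw b y * er (-η) y‖ ≤
      (‖DS (fun n : ℕ => Fb b ((n : ℤ) - 1) - Fb b n) (Ioc p (p + k)) η‖ + 4) / |η| := by
  have hη' : -η ≠ 0 := neg_ne_zero.2 hη
  rw [hw_split b (-η) y1 y2 (by linarith) (by linarith),
    abel_form' (ea (-η)) (Fb b) 1 (Fb_le b) (-η) y1 (Ge_ea (-η) hη') p hp1 hp2 k y2 h12 hq1 hq2]
  have e1 : ∑ m ∈ Ioc p (p + k), (Fb b ((m : ℤ) - 1) - Fb b m) * ea (-η) (Real.log m) =
      DS (fun n : ℕ => Fb b ((n : ℤ) - 1) - Fb b n) (Ioc p (p + k)) η / (((-η : ℝ) : ℂ) * Complex.I) := by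
    unfold DS ea
    rw [Finset.sum_div]
    refine Finset.sum_congr rfl fun m _ => ?_
    ring
  rw [e1]
  have d := dens_bd 1 (-η) hη' y1 y2 h1 h12
  simp only [pow_one] at d
  have n1 : ‖DS (fun n : ℕ => Fb b ((n : ℤ) - 1) - Fb b n) (Ioc p (p + k)) η / (((-η : ℝ) : ℂ) * Complex.I)‖ =
      ‖DS (fun n : ℕ => Fb b ((n : ℤ) - 1) - Fb b n) (Ioc p (p + k)) η‖ / |η| := by
    rw [norm_div, norm_mul, Complex.norm_I, mul_one, Complex.norm_real, Real.norm_eq_abs, abs_neg]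
  have n2 : ‖Fb b ((p : ℤ) + k) * ea (-η) y2‖ ≤ 1 / |η| := by
    rw [norm_mul, nrm_ea, abs_neg]
    have := Fb_le b ((p : ℤ) + k)
    have h : 0 ≤ 1 / |η| := by positivity
    nlinarith
  have n3 : ‖Fb b p * ea (-η) y1‖ ≤ 1 / |η| := by
    rw [norm_mul, nrm_ea, abs_neg]
    have := Fb_le b p
    have h : 0 ≤ 1 / |η| := by positivity
    nlinarith
  rw [abs_neg] at d
  refine (norm_sub_le _ _).trans ?_
  refine (add_le_add ((norm_sub_le _ _).trans (add_le_add ((norm_add_le _ _).trans (add_le_add n1.le n2)) n3)) d).trans ?_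
  apply le_of_eq
  ring

theorem s_FTT (h : S_MVT) : S_FTT := by
  obtain ⟨C, hC, hm⟩ := h
  intro b
  refine ⟨600 * C, by positivity, ?_⟩
  intro Y y1 y2 x L T hY h1 h12 h2 hL hT hη
  have hy1 : 1 ≤ y1 := hY.trans h1
  have hpq : ⌊Real.exp y1⌋₊ ≤ ⌊Real.exp y2⌋₊ := Nat.floor_le_floor (Real.exp_le_exp.2 h12)
  obtain ⟨p, hp⟩ : ∃ p, p = ⌊Real.exp y1⌋₊ := ⟨_, rfl⟩
  obtain ⟨k, hk⟩ : ∃ k, ⌊Real.exp y2⌋₊ = p + k := by
    rw [hp]; exact Nat.exists_eq_add_of_le hpq
  have hp1 : (p : ℝ) ≤ Real.exp y1 := by rw [hp]; exact Nat.floor_le (Real.exp_pos _).le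
  have hp2 : Real.exp y1 ≤ p + 1 := by rw [hp]; exact (Nat.lt_floor_add_one _).le
  have hq1 : (p : ℝ) + k ≤ Real.exp y2 := by
    have := Nat.floor_le (Real.exp_pos y2).le
    rw [hk] at this; push_cast at this; exact this
  have hq2 : Real.exp y2 ≤ p + k + 1 := by
    have := (Nat.lt_floor_add_one (Real.exp y2)).le
    rw [hk] at this; push_cast at this; exact this
  obtain ⟨c, hc⟩ : ∃ c : ℕ → ℂ, c = fun n : ℕ => Fb b ((n : ℤ) - 1) - Fb b n := ⟨_, rfl⟩
  have hc2 : ∀ n, ‖c n‖ ^ 2 ≤ 4 := by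
    intro n
    have : ‖c n‖ ≤ 2 := by
      rw [hc]
      exact (norm_sub_le _ _).trans (by linarith [Fb_le b ((n : ℤ) - 1), Fb_le b (n : ℤ)])
    nlinarith [norm_nonneg (c n)]
  have he2 : Real.exp 2 ≤ 8 := by
    have h9 := Real.exp_one_lt_d9
    have : Real.exp 2 = Real.exp 1 * Real.exp 1 := by rw [← Real.exp_add]; norm_num
    rw [this]
    nlinarith [Real.exp_pos 1]
  have heY : 1 ≤ Real.exp Y := Real.one_le_exp (by linarith)
  have hM8 : Real.exp y2 ≤ 8 * Real.exp Y := by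
    calc Real.exp y2 ≤ Real.exp (Y + 2) := Real.exp_le_exp.2 h2
      _ = Real.exp Y * Real.exp 2 := Real.exp_add _ _
      _ ≤ 8 * Real.exp Y := by nlinarith
  have hM := hm c (Ioc p (p + k)) (8 * Real.exp Y) x L (by linarith) (by
    intro n hn
    obtain ⟨a1, a2⟩ := Finset.mem_Ioc.1 hn
    refine ⟨by omega, ?_⟩
    have : (n : ℝ) ≤ p + k := by exact_mod_cast a2
    linarith) hL
  have hsum : ∑ n ∈ Ioc p (p + k), ‖c n‖ ^ 2 ≤ 32 * Real.exp Y := by
    calc ∑ n ∈ Ioc p (p + k), ‖c n‖ ^ 2 ≤ ∑ n ∈ Ioc p (p + k), (4 : ℝ) := Finset.sum_le_sum fun n _ => hc2 n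
      _ = 4 * k := by simp; ring
      _ ≤ 32 * Real.exp Y := by
          have : (k : ℝ) ≤ Real.exp y2 := by
            have : (0 : ℝ) ≤ p := Nat.cast_nonneg p
            linarith
          linarith
  have hmono : ∫ η in x..(x + L), ‖∫ y in y1..y2, hw b y * er (-η) y‖ ^ 2 ≤
      ∫ η in x..(x + L), (2 * ‖DS c (Ioc p (p + k)) η‖ ^ 2 + 32) / T ^ 2 := by
    rw [intervalIntegral.integral_of_le (by linarith), intervalIntegral.integral_of_le (by linarith)]
    refine integral_mono_of_nonneg (Filter.Eventually.of_forall fun η => by positivity) ?_ ?_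
    · have hc' : Continuous fun η => (2 * ‖DS c (Ioc p (p + k)) η‖ ^ 2 + 32) / T ^ 2 := by
        have := cont_DS c (Ioc p (p + k))
        fun_prop
      exact (hc'.intervalIntegrable x (x + L)).1
    · refine (ae_restrict_iff' measurableSet_Ioc).2 (Filter.Eventually.of_forall fun η hη' => ?_)
      have hT' := hη η (Set.Ioc_subset_Icc_self hη')
      have hη0 : η ≠ 0 := by
        intro h; rw [h, abs_zero] at hT'; linarith
      have hb := hw_bd b y1 y2 η hy1 h12 hη0 p k hp1 hp2 hq1 hq2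
      rw [← hc] at hb
      show ‖∫ y in y1..y2, hw b y * er (-η) y‖ ^ 2 ≤ (2 * ‖DS c (Ioc p (p + k)) η‖ ^ 2 + 32) / T ^ 2
      have hb2 : ‖∫ y in y1..y2, hw b y * er (-η) y‖ ≤ (‖DS c (Ioc p (p + k)) η‖ + 4) / T :=
        hb.trans (div_le_div_of_nonneg_left (by positivity) hT hT')
      calc ‖∫ y in y1..y2, hw b y * er (-η) y‖ ^ 2 ≤ ((‖DS c (Ioc p (p + k)) η‖ + 4) / T) ^ 2 := by gcongr
        _ = (‖DS c (Ioc p (p + k)) η‖ + 4) ^ 2 / T ^ 2 := div_pow _ _ _
        _ ≤ (2 * ‖DS c (Ioc p (p + k)) η‖ ^ 2 + 32) / T ^ 2 := by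
            gcongr
            nlinarith [sq_nonneg (‖DS c (Ioc p (p + k)) η‖ - 4)]
  have hi : IntervalIntegrable (fun η => ‖DS c (Ioc p (p + k)) η‖ ^ 2) volume x (x + L) := by
    refine Continuous.intervalIntegrable ?_ _ _
    have := cont_DS c (Ioc p (p + k))
    fun_prop
  have hval : ∫ η in x..(x + L), (2 * ‖DS c (Ioc p (p + k)) η‖ ^ 2 + 32) / T ^ 2 =
      (2 * (∫ η in x..(x + L), ‖DS c (Ioc p (p + k)) η‖ ^ 2) + 32 * L) / T ^ 2 := by
    rw [intervalIntegral.integral_div, intervalIntegral.integral_add (hi.const_mul 2) intervalIntegrable_const,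
      intervalIntegral.integral_const_mul, intervalIntegral.integral_const]
    simp only [smul_eq_mul]
    ring
  rw [hval] at hmono
  refine hmono.trans ?_
  gcongr
  calc 2 * (∫ η in x..(x + L), ‖DS c (Ioc p (p + k)) η‖ ^ 2) + 32 * L
      ≤ 2 * (C * (L + 8 * Real.exp Y) * (32 * Real.exp Y)) + 32 * L := by
        have : C * (L + 8 * Real.exp Y) * ∑ n ∈ Ioc p (p + k), ‖c n‖ ^ 2 ≤ C * (L + 8 * Real.exp Y) * (32 * Real.exp Y) := by
          gcongr
        linarith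
    _ ≤ 600 * C * (L + Real.exp Y) * Real.exp Y := by
        have q1 : L ≤ C * L * Real.exp Y := by
          have := mul_le_mul hC heY (by norm_num) (by linarith : (0:ℝ) ≤ C)
          nlinarith
        have q2 : 0 ≤ C * L * Real.exp Y := by positivity
        have q3 : 0 ≤ C * Real.exp Y * Real.exp Y := by positivity
        nlinarith

end Pool.Agent.L7h37.MW
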