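import Pool.Agent.L7h37.MW.Wn
import Pool.Agent.L7h37.MW.Ftt

set_option autoImplicit false

/-! # Project MW (helper88), part FTL (helper37) -/

namespace Pool.Agent.L7h37.MW

open Finset MeasureTheory Filter Topology
open scoped ENNReal
open Pool.Agent.H376R2.MR (er)
open Pool.Agent.N798.T (vl)
open Pool.Agent.N539.T (nrm_er cont_er ea hd_ea nrm_ea dens_bd hd_er)
open Pool.Agent.L7h88.MW

/-- the deviation of the two densities -/
theorem dens_diff (b : ℤ) (Y y : ℝ) (hY : 3 * |(b : ℝ)| + 20 ≤ Y) (hy : Y ≤ y) :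
    ‖((1 / y : ℝ) : ℂ) - ((1 / Real.log ((⌊Real.exp y⌋ + b).toNat : ℕ) : ℝ) : ℂ)‖ ≤ 2 * (|(b : ℝ)| + 1) * Real.exp (-Y) := by
  have hb0 : 0 ≤ |(b : ℝ)| := abs_nonneg _
  have bb1 : (b : ℝ) ≤ |(b : ℝ)| := le_abs_self _
  have bb2 : -|(b : ℝ)| ≤ b := neg_abs_le _
  have eY : Y + 1 ≤ Real.exp Y := Real.add_one_le_exp Y
  have ey : Real.exp Y ≤ Real.exp y := Real.exp_le_exp.2 hy
  have f1 : ((⌊Real.exp y⌋ : ℤ) : ℝ) ≤ Real.exp y := Int.floor_le _
  have f2 : Real.exp y < (⌊Real.exp y⌋ : ℤ) + 1 := Int.lt_floor_add_one _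
  have hpos : (0 : ℝ) ≤ (⌊Real.exp y⌋ : ℤ) + (b : ℝ) := by linarith
  have hpos' : (0 : ℤ) ≤ ⌊Real.exp y⌋ + b := by exact_mod_cast hpos
  obtain ⟨n, hn⟩ : ∃ n : ℕ, (n : ℤ) = ⌊Real.exp y⌋ + b := ⟨(⌊Real.exp y⌋ + b).toNat, Int.toNat_of_nonneg hpos'⟩
  have hnr : (n : ℝ) = (⌊Real.exp y⌋ : ℤ) + (b : ℝ) := by exact_mod_cast hn
  have e1 : (⌊Real.exp y⌋ + b).toNat = n := by rw [← hn]; exact Int.toNat_natCast n
  rw [e1, ← Complex.ofReal_sub, Complex.norm_real, Real.norm_eq_abs]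
  have hnl : Real.exp Y / 2 ≤ n := by rw [hnr]; linarith
  have hn0 : (0 : ℝ) < n := lt_of_lt_of_le (by positivity) hnl
  have hd : |(n : ℝ) - Real.exp y| ≤ |(b : ℝ)| + 1 := by
    rw [hnr, abs_le]; constructor <;> linarith
  have hE : 0 < Real.exp y := Real.exp_pos y
  have hl1 : 1 ≤ Real.log n := by
    rw [Real.le_log_iff_exp_le hn0]
    have : Real.exp 1 ≤ 3 := by linarith [Real.exp_one_lt_d9]
    linarith
  have hlog : |Real.log n - y| ≤ 2 * (|(b : ℝ)| + 1) * Real.exp (-Y) := by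
    have key : ∀ u v : ℝ, 0 < u → 0 < v → Real.exp Y / 2 ≤ v → Real.log u - Real.log v ≤ |u - v| * (2 * Real.exp (-Y)) := by
      intro u v hu hv hv2
      rw [← Real.log_div hu.ne' hv.ne']
      refine (Real.log_le_sub_one_of_pos (by positivity)).trans ?_
      rw [div_sub_one hv.ne']
      calc (u - v) / v ≤ |u - v| / v := by gcongr; exact le_abs_self _
        _ ≤ |u - v| / (Real.exp Y / 2) := by gcongr
        _ = |u - v| * (2 * Real.exp (-Y)) := by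
            rw [Real.exp_neg]; field_simp
    have k1 := key n (Real.exp y) hn0 hE (by linarith [Real.exp_pos Y])
    have k2 := key (Real.exp y) n hE hn0 hnl
    rw [Real.log_exp] at k1 k2
    rw [abs_sub_comm (Real.exp y)] at k2
    have hpe : 0 ≤ 2 * Real.exp (-Y) := by positivity
    have := mul_le_mul_of_nonneg_right hd hpe
    rw [abs_le]
    constructor <;> linarith
  have hy1 : 1 ≤ y := by linarith
  have e2 : 1 / y - 1 / Real.log n = (Real.log n - y) / (y * Real.log n) := by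
    have : y ≠ 0 := by linarith
    have : Real.log n ≠ 0 := by linarith
    field_simp
  rw [e2, abs_div, abs_of_pos (by positivity : 0 < y * Real.log n)]
  refine (div_le_self (abs_nonneg _) ?_).trans hlog
  nlinarith

/-- decomposition of the Fourier integral -/
theorem hw_dec (b : ℤ) (Y y1 y2 η : ℝ) (hY : 3 * |(b : ℝ)| + 20 ≤ Y) (h1 : Y ≤ y1) (h12 : y1 ≤ y2) (h2 : y2 ≤ Y + 2)
    (p k N : ℕ) (hN : (N : ℤ) = p + b - 1)
    (hp1 : (p : ℝ) ≤ Real.exp y1) (hp2 : Real.exp y1 ≤ p + 1) (hq1 : (p : ℝ) + k ≤ Real.exp y2)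
    (hq2 : Real.exp y2 ≤ p + k + 1) :
    ‖(∫ y in y1..y2, hw b y * er (-η) y) - ∑ n ∈ Ioc N (N + k), Wn b n η * (pw n * er (-η) (Real.log n))‖ ≤
      (4 * |(b : ℝ)| + 16) * Real.exp (-Y) := by
  have hb0 : 0 ≤ |(b : ℝ)| := abs_nonneg _
  have eY : Y + 1 ≤ Real.exp Y := Real.add_one_le_exp Y
  have ey : Real.exp Y ≤ Real.exp y1 := Real.exp_le_exp.2 h1
  have ey2 : Real.exp y1 ≤ Real.exp y2 := Real.exp_le_exp.2 h12
  have hpl : Real.exp Y / 2 ≤ p := by linarith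
  have hp0 : (0 : ℝ) < p := lt_of_lt_of_le (by positivity) hpl
  have hk0 : (0 : ℝ) ≤ k := Nat.cast_nonneg k
  obtain ⟨F, hF⟩ : ∃ F : ℤ → ℂ, F = fun m : ℤ => pw (m + b).toNat := ⟨_, rfl⟩
  have hF3 : ∀ m, ‖F m‖ ≤ 3 := by intro m; rw [hF]; exact pw_le _
  have hpf := piece_form F 3 hF3 (-η) y1 y2 p h12 hp1 hp2 k hq1 hq2
  have hse := sum_eq b η p N hN k
  have hs2 : ∑ i ∈ range k, F ((p : ℤ) + i) * (Ge (-η) (Real.log (p + i + 1)) - Ge (-η) (Real.log (p + i))) =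
      ∑ n ∈ Ioc N (N + k), Wn b n η * (pw n * er (-η) (Real.log n)) := by
    rw [hse, hF]
  rw [hs2] at hpf
  have hsplit : ∫ y in y1..y2, hw b y * er (-η) y = (∫ t in y1..y2, F ⌊Real.exp t⌋ * er (-η) t) -
      ∫ y in y1..y2, (((1 / y : ℝ) : ℂ) - ((1 / Real.log ((⌊Real.exp y⌋ + b).toNat : ℕ) : ℝ) : ℂ)) * er (-η) y := by
    have i1 := ii_stepK F 3 hF3 (-η) y1 y2
    have i2 : IntervalIntegrable (fun y : ℝ => (((1 / y : ℝ) : ℂ) -
        ((1 / Real.log ((⌊Real.exp y⌋ + b).toNat : ℕ) : ℝ) : ℂ)) * er (-η) y) volume y1 y2 := by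
      have j1 := ii_dens (-η) y1 y2 (by linarith) (by linarith)
      have j2 := ii_stepK (fun m : ℤ => ((1 / Real.log (((m + b).toNat : ℕ) : ℝ) : ℝ) : ℂ)) 4 (by
        intro m
        have h1 := pw_le (m + b).toNat
        unfold pw at h1
        have h2 : ‖(if ((m + b).toNat).Prime then 1 else 0 : ℂ)‖ ≤ 1 := by split_ifs <;> simp
        have h3 := norm_sub_norm_le (((1 / Real.log (((m + b).toNat : ℕ) : ℝ) : ℝ) : ℂ)) (if ((m + b).toNat).Prime then 1 else 0 : ℂ)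
        rw [norm_sub_rev] at h3
        linarith) (-η) y1 y2
      refine (j1.sub j2).congr (fun y _ => ?_)
      show ((1 / y : ℝ) : ℂ) * er (-η) y - ((1 / Real.log (((⌊Real.exp y⌋ + b).toNat : ℕ) : ℝ) : ℝ) : ℂ) * er (-η) y = _
      rw [sub_mul]
    rw [← intervalIntegral.integral_sub i1 i2]
    refine intervalIntegral.integral_congr fun y _ => ?_
    show hw b y * er (-η) y = F ⌊Real.exp y⌋ * er (-η) y - (((1 / y : ℝ) : ℂ) -
      ((1 / Real.log ((⌊Real.exp y⌋ + b).toNat : ℕ) : ℝ) : ℂ)) * er (-η) y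
    rw [← sub_mul]
    congr 1
    rw [hF]
    unfold hw pw vl
    exact (sub_sub_sub_cancel_right _ _ _).symm
  have hd : ‖∫ y in y1..y2, (((1 / y : ℝ) : ℂ) - ((1 / Real.log ((⌊Real.exp y⌋ + b).toNat : ℕ) : ℝ) : ℂ)) * er (-η) y‖ ≤
      2 * (|(b : ℝ)| + 1) * Real.exp (-Y) * 2 := by
    have := intervalIntegral.norm_integral_le_of_norm_le_const (a := y1) (b := y2) (C := 2 * (|(b : ℝ)| + 1) * Real.exp (-Y))
      (f := fun y : ℝ => (((1 / y : ℝ) : ℂ) - ((1 / Real.log ((⌊Real.exp y⌋ + b).toNat : ℕ) : ℝ) : ℂ)) * er (-η) y) (by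
        intro y hy
        rw [Set.uIoc_of_le h12] at hy
        rw [norm_mul, nrm_er, mul_one]
        exact dens_diff b Y y hY (by linarith [hy.1]))
    refine this.trans ?_
    have h0 : 0 ≤ 2 * (|(b : ℝ)| + 1) * Real.exp (-Y) := by positivity
    refine mul_le_mul_of_nonneg_left ?_ h0
    rw [abs_of_nonneg (by linarith)]
    linarith
  have hlogb : ∀ (m y : ℝ), Real.exp Y / 2 ≤ m → m ≤ Real.exp y → Real.exp y ≤ m + 1 → |y - Real.log m| ≤ 2 * Real.exp (-Y) := by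
    intro m y hm h3 h4
    have hm0 : 0 < m := lt_of_lt_of_le (by positivity) hm
    have a1 : Real.log m ≤ y := by
      have := Real.log_le_log hm0 h3
      rwa [Real.log_exp] at this
    have a2 : y ≤ Real.log (m + 1) := by
      have := Real.log_le_log (Real.exp_pos y) h4
      rwa [Real.log_exp] at this
    have a3 := el_le hm0
    unfold el at a3
    rw [abs_of_nonneg (by linarith)]
    have a4 : 1 / m ≤ 1 / (Real.exp Y / 2) := one_div_le_one_div_of_le (by positivity) hm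
    have a5 : 1 / (Real.exp Y / 2) = 2 * Real.exp (-Y) := by
      rw [Real.exp_neg]; field_simp
    linarith
  have n1 : ‖F ((p : ℤ) + k) * (Ge (-η) y2 - Ge (-η) (Real.log (p + k)))‖ ≤ 6 * Real.exp (-Y) := by
    rw [norm_mul]
    have g1 := Ge_le (-η) (Real.log (p + k)) y2
    have g2 := hlogb (p + k) y2 (by linarith) hq1 hq2
    calc ‖F ((p : ℤ) + k)‖ * ‖Ge (-η) y2 - Ge (-η) (Real.log (p + k))‖ ≤ 3 * (2 * Real.exp (-Y)) :=
          mul_le_mul (hF3 _) (g1.trans g2) (norm_nonneg _) (by norm_num)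
      _ = 6 * Real.exp (-Y) := by ring
  have n2 : ‖F p * (Ge (-η) y1 - Ge (-η) (Real.log p))‖ ≤ 6 * Real.exp (-Y) := by
    rw [norm_mul]
    have g1 := Ge_le (-η) (Real.log p) y1
    have g2 := hlogb p y1 hpl hp1 hp2
    calc ‖F p‖ * ‖Ge (-η) y1 - Ge (-η) (Real.log p)‖ ≤ 3 * (2 * Real.exp (-Y)) :=
          mul_le_mul (hF3 _) (g1.trans g2) (norm_nonneg _) (by norm_num)
      _ = 6 * Real.exp (-Y) := by ring
  rw [hsplit, hpf]
  obtain ⟨S, hS⟩ : ∃ S : ℂ, S = ∑ n ∈ Ioc N (N + k), Wn b n η * (pw n * er (-η) (Real.log n)) := ⟨_, rfl⟩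
  rw [← hS]
  obtain ⟨A, hA⟩ : ∃ A : ℂ, A = F ((p : ℤ) + k) * (Ge (-η) y2 - Ge (-η) (Real.log (p + k))) := ⟨_, rfl⟩
  obtain ⟨B, hB⟩ : ∃ B : ℂ, B = F p * (Ge (-η) y1 - Ge (-η) (Real.log p)) := ⟨_, rfl⟩
  obtain ⟨I, hI⟩ : ∃ I : ℂ, I = ∫ y in y1..y2, (((1 / y : ℝ) : ℂ) -
    ((1 / Real.log ((⌊Real.exp y⌋ + b).toNat : ℕ) : ℝ) : ℂ)) * er (-η) y := ⟨_, rfl⟩
  rw [← hA] at n1
  rw [← hB] at n2
  rw [← hI] at hd
  rw [← hA, ← hB, ← hI]
  have : S + A - B - I - S = A - B - I := by ring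
  rw [this]
  refine (norm_sub_le _ _).trans ((add_le_add ((norm_sub_le _ _).trans (add_le_add n1 n2)) hd).trans (le_of_eq ?_))
  ring

theorem cont_WS (b : ℤ) (N N2 : ℕ) :
    Continuous fun η => ∑ n ∈ Ioc N N2, Wn b n η * (pw n * er (-η) (Real.log n)) := by
  refine continuous_finsetSum _ fun n _ => ?_
  refine (cont_Wn b n).mul (continuous_const.mul ?_)
  unfold er
  fun_prop

theorem s_FTL (hA : S_ABL) (hL : S_LP) : S_FTL := by
  intro b A C
  obtain ⟨D, N0, hD, hN02, hlp⟩ := hL (A + 2 * C) (2 * C + 1)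
  have hb0 : 0 ≤ |(b : ℝ)| := abs_nonneg _
  obtain ⟨K2, hK2⟩ : ∃ K2 : ℝ, K2 = 128 * |(b : ℝ)| + 34 := ⟨_, rfl⟩
  have hK2p : 0 ≤ K2 := by rw [hK2]; positivity
  obtain ⟨K1, hK1⟩ : ∃ K1 : ℝ, K1 = 4 * |(b : ℝ)| + 16 := ⟨_, rfl⟩
  have hK1p : 0 ≤ K1 := by rw [hK1]; positivity
  refine ⟨2 * (K2 ^ 2 * (D * 81 * 2 ^ (A + 2 * C))) + 2 * K1 ^ 2 * (A + C).factorial,
    3 * |(b : ℝ)| + 2 * N0 + 20, by positivity, ?_, ?_⟩
  · have : (0 : ℝ) ≤ N0 := Nat.cast_nonneg _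
    linarith
  intro Y y1 y2 x L hY h1 h12 h2 hL0 hLle hx
  have hN0c : (0 : ℝ) ≤ N0 := Nat.cast_nonneg _
  have hY' : 3 * |(b : ℝ)| + 20 ≤ Y := by linarith
  have hY20 : 20 ≤ Y := by linarith
  have hY0 : 0 < Y := by linarith
  have bb1 : (b : ℝ) ≤ |(b : ℝ)| := le_abs_self _
  have bb2 : -|(b : ℝ)| ≤ b := neg_abs_le _
  have eY : Y + 1 ≤ Real.exp Y := Real.add_one_le_exp Y
  have ey : Real.exp Y ≤ Real.exp y1 := Real.exp_le_exp.2 h1
  have ey2 : Real.exp y1 ≤ Real.exp y2 := Real.exp_le_exp.2 h12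
  have he2 : Real.exp 2 ≤ 8 := by
    have h9 := Real.exp_one_lt_d9
    have : Real.exp 2 = Real.exp 1 * Real.exp 1 := by rw [← Real.exp_add]; norm_num
    rw [this]
    nlinarith [Real.exp_pos 1]
  have hM8 : Real.exp y2 ≤ 8 * Real.exp Y := by
    calc Real.exp y2 ≤ Real.exp (Y + 2) := Real.exp_le_exp.2 h2
      _ = Real.exp Y * Real.exp 2 := Real.exp_add _ _
      _ ≤ 8 * Real.exp Y := by nlinarith [Real.exp_pos Y]
  have hpq : ⌊Real.exp y1⌋₊ ≤ ⌊Real.exp y2⌋₊ := Nat.floor_le_floor ey2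
  obtain ⟨p, hp⟩ : ∃ p, p = ⌊Real.exp y1⌋₊ := ⟨_, rfl⟩
  obtain ⟨k, hk⟩ : ∃ k, ⌊Real.exp y2⌋₊ = p + k := by
    rw [hp]; exact Nat.exists_eq_add_of_le hpq
  have hp1 : (p : ℝ) ≤ Real.exp y1 := by rw [hp]; exact Nat.floor_le (Real.exp_pos _).le
  have hp2 : Real.exp y1 < p + 1 := by rw [hp]; exact Nat.lt_floor_add_one _
  have hq1 : (p : ℝ) + k ≤ Real.exp y2 := by
    have := Nat.floor_le (Real.exp_pos y2).le
    rw [hk] at this; push_cast at this; exact this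
  have hq2 : Real.exp y2 ≤ p + k + 1 := by
    have := (Nat.lt_floor_add_one (Real.exp y2)).le
    rw [hk] at this; push_cast at this; exact this
  have hNn : (0 : ℤ) ≤ (p : ℤ) + b - 1 := by
    have : (0 : ℝ) ≤ (p : ℝ) + b - 1 := by linarith
    exact_mod_cast this
  obtain ⟨N, hN⟩ : ∃ N : ℕ, (N : ℤ) = (p : ℤ) + b - 1 := ⟨((p : ℤ) + b - 1).toNat, Int.toNat_of_nonneg hNn⟩
  have hNr : (N : ℝ) = (p : ℝ) + b - 1 := by exact_mod_cast hN
  have hNl : Real.exp Y / 2 ≤ N := by rw [hNr]; linarith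
  have hNu : (N : ℝ) ≤ 9 * Real.exp Y := by rw [hNr]; linarith
  have hk0 : (0 : ℝ) ≤ k := Nat.cast_nonneg _
  have hp0 : (0 : ℝ) ≤ p := Nat.cast_nonneg _
  have hk8 : (k : ℝ) ≤ 8 * Real.exp Y := by linarith
  have hhalf : Real.exp (Y / 2) ≤ Real.exp Y / 2 := by
    have e1 : Real.exp Y = Real.exp (Y / 2) * Real.exp (Y / 2) := by
      rw [← Real.exp_add]; congr 1; ring
    have e2 : Y / 2 + 1 ≤ Real.exp (Y / 2) := Real.add_one_le_exp _
    have e3 : 2 ≤ Real.exp (Y / 2) := by linarith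
    rw [e1]
    nlinarith [Real.exp_pos (Y / 2)]
  have hNhalf : Real.exp (Y / 2) ≤ N := hhalf.trans hNl
  have hNpos : (0 : ℝ) < N := lt_of_lt_of_le (Real.exp_pos _) hNhalf
  have hNlog : Y / 2 ≤ Real.log N := by
    rw [Real.le_log_iff_exp_le hNpos]
    exact hNhalf
  have hlog0 : 0 < Real.log N := by linarith
  have hNN0 : N0 ≤ N := by
    have : (N0 : ℝ) ≤ N := by linarith
    exact_mod_cast this
  have hN16 : N + k ≤ 16 * N := by
    have : ((N + k : ℕ) : ℝ) ≤ 16 * N := by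
      push_cast
      rw [hNr]
      linarith
    exact_mod_cast this
  -- comparison of the powers
  have hYl : Y ^ C ≤ 2 ^ C * Real.log N ^ C := by
    rw [← mul_pow]
    gcongr
    linarith
  have h2l : (2 : ℝ) ^ (C + 1) ≤ Real.log N ^ (C + 1) := by
    gcongr
    linarith
  have hYl2 : 2 * Y ^ C ≤ Real.log N ^ (2 * C + 1) := by
    calc 2 * Y ^ C ≤ 2 * (2 ^ C * Real.log N ^ C) := by gcongr
      _ = 2 ^ (C + 1) * Real.log N ^ C := by ring
      _ ≤ Real.log N ^ (C + 1) * Real.log N ^ C := by gcongr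
      _ = Real.log N ^ (2 * C + 1) := by rw [← pow_add]; congr 1; ring
  have hexpsq : Real.exp (Y / 2) ≤ 2 * √(N : ℝ) := by
    have e1 : Real.exp Y = Real.exp (Y / 2) * Real.exp (Y / 2) := by
      rw [← Real.exp_add]; congr 1; ring
    have h3 : Real.exp (Y / 2) / 2 ≤ √(N : ℝ) := by
      apply Real.le_sqrt_of_sq_le
      have : 0 < Real.exp (Y / 2) * Real.exp (Y / 2) := by positivity
      nlinarith
    linarith
  have hL1 : L ≤ √(N : ℝ) * Real.log N ^ (2 * C + 1) := by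
    calc L ≤ Real.exp (Y / 2) * Y ^ C := hLle
      _ ≤ 2 * √(N : ℝ) * Y ^ C := by gcongr
      _ = √(N : ℝ) * (2 * Y ^ C) := by ring
      _ ≤ √(N : ℝ) * Real.log N ^ (2 * C + 1) := by gcongr
  have hx1 : |x| ≤ N * Real.log N ^ (2 * C + 1) := by
    calc |x| ≤ Real.exp Y * Y ^ C := hx
      _ ≤ 2 * (N : ℝ) * Y ^ C := by gcongr; linarith
      _ = N * (2 * Y ^ C) := by ring
      _ ≤ N * Real.log N ^ (2 * C + 1) := by gcongr
  -- the constants of ABL
  have hYC1 : 1 ≤ Y ^ C := one_le_pow₀ (by linarith)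
  obtain ⟨r0, hr0⟩ : ∃ r0 : ℝ, r0 = (16 * |(b : ℝ)| + 4) * Y ^ C * Real.exp (-(2 * Y)) := ⟨_, rfl⟩
  have hr0p : 0 ≤ r0 := by rw [hr0]; positivity
  have hE0 : 0 ≤ D * (N : ℝ) ^ 2 / Real.log N ^ (A + 2 * C) := by positivity
  have hem : Real.exp Y * Real.exp (-Y) = 1 := by rw [← Real.exp_add]; simp
  have hexp2 : Real.exp (-(2 * Y)) = Real.exp (-Y) * Real.exp (-Y) := by
    rw [← Real.exp_add]; congr 1; ring
  obtain ⟨z, hz⟩ : ∃ z : ℝ, z = Real.exp (-Y) := ⟨_, rfl⟩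
  obtain ⟨X, hX⟩ : ∃ X : ℝ, X = Real.exp Y := ⟨_, rfl⟩
  have hz0 : 0 < z := by rw [hz]; positivity
  have hX0 : 0 < X := by rw [hX]; positivity
  have hXz : X * z = 1 := by rw [hX, hz]; exact hem
  have hηb : ∀ η ∈ Set.Icc x (x + L), |η| ≤ 2 * Real.exp Y * Y ^ C := by
    intro η hη
    have a1 : |η| ≤ |x| + L := by
      have a2 := neg_abs_le x
      have a3 := le_abs_self x
      rw [abs_le]
      constructor <;> linarith [hη.1, hη.2]
    have a4 : Real.exp (Y / 2) ≤ Real.exp Y := Real.exp_le_exp.2 (by linarith)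
    have a5 : Real.exp (Y / 2) * Y ^ C ≤ Real.exp Y * Y ^ C := by gcongr
    linarith
  have habl := hA pw (Wn b) (fun _ => r0) N (N + k) x L (2 * z) (k * r0) (D * (N : ℝ) ^ 2 / Real.log N ^ (A + 2 * C))
    (Nat.le_add_right _ _) hL0 (by positivity) hE0 (fun _ => hr0p) (cont_Wn b)
    (by
      intro n hn η _
      obtain ⟨a1, a2⟩ := Finset.mem_Ioc.1 hn
      have a3 : (N : ℝ) + 1 ≤ n := by exact_mod_cast a1
      have a4 : X / 2 ≤ (n : ℝ) - b := by rw [hX]; rw [hNr] at a3; linarith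
      refine (Wn_le b n η (lt_of_lt_of_le (by positivity) a4)).trans ?_
      refine (one_div_le_one_div_of_le (by positivity) a4).trans (le_of_eq ?_)
      field_simp
      linarith)
    (by
      intro n hn1 hn2 η hη
      have a3 : (N : ℝ) + 1 ≤ n := by exact_mod_cast hn1
      have a4 : X / 2 ≤ (n : ℝ) - b := by rw [hX]; rw [hNr] at a3; linarith
      have a5 : X / 2 ≤ n := by rw [hX]; linarith
      refine (Wn_diff b n η (X / 2) (by positivity) a5 a4).trans ?_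
      have a6 : |η| ≤ 2 * X * Y ^ C := by rw [hX]; exact hηb η hη
      calc |η| * (|(b : ℝ)| / (X / 2) ^ 2) * (1 / (X / 2)) + 1 / (X / 2) ^ 2
          ≤ (2 * X * Y ^ C) * (|(b : ℝ)| / (X / 2) ^ 2) * (1 / (X / 2)) + 1 / (X / 2) ^ 2 * Y ^ C := by
            have : 1 / (X / 2) ^ 2 ≤ 1 / (X / 2) ^ 2 * Y ^ C := le_mul_of_one_le_right (by positivity) hYC1
            gcongr
        _ = (16 * |(b : ℝ)| + 4) * Y ^ C * (1 / X ^ 2) := by
            field_simp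
            ring
        _ = r0 := by
            have : 1 / X ^ 2 = z * z := by
              rw [div_eq_iff (by positivity)]
              calc (1 : ℝ) = (X * z) * (X * z) := by rw [hXz]; norm_num
                _ = z * z * X ^ 2 := by ring
            rw [hr0, this, hexp2, ← hz])
    (by
      rw [Finset.sum_const, Nat.card_Ioc]
      simp)
    (by
      intro m hm1 hm2
      exact hlp N N m x L hNN0 le_rfl hm1 (hm2.trans hN16) hL0 hL1 hx1)
  -- the main bound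
  have hB : 2 * z + k * r0 ≤ K2 * Y ^ C * z := by
    have a1 : (k : ℝ) * r0 ≤ 8 * X * r0 := by rw [hX]; gcongr
    have a2 : 8 * X * r0 = 8 * (16 * |(b : ℝ)| + 4) * Y ^ C * z := by
      rw [hr0, hexp2, ← hz]
      calc 8 * X * ((16 * |(b : ℝ)| + 4) * Y ^ C * (z * z)) = 8 * (16 * |(b : ℝ)| + 4) * Y ^ C * z * (X * z) := by ring
        _ = 8 * (16 * |(b : ℝ)| + 4) * Y ^ C * z := by rw [hXz, mul_one]
    have a3 : 2 * z ≤ 2 * Y ^ C * z := by nlinarith
    rw [hK2]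
    nlinarith
  have hlogA : 1 / Real.log N ^ (A + 2 * C) ≤ 2 ^ (A + 2 * C) / Y ^ (A + 2 * C) := by
    rw [div_le_div_iff₀ (by positivity) (by positivity), one_mul, ← mul_pow]
    gcongr
    linarith
  have hmain : ∫ η in x..(x + L), ‖∑ n ∈ Ioc N (N + k), Wn b n η * (pw n * er (-η) (Real.log n))‖ ^ 2 ≤
      K2 ^ 2 * (D * 81 * 2 ^ (A + 2 * C)) / Y ^ A := by
    refine habl.trans ?_
    calc (2 * z + k * r0) ^ 2 * (D * (N : ℝ) ^ 2 / Real.log N ^ (A + 2 * C))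
        ≤ (K2 * Y ^ C * z) ^ 2 * (D * (9 * X) ^ 2 * (2 ^ (A + 2 * C) / Y ^ (A + 2 * C))) := by
          have a1 : D * (N : ℝ) ^ 2 / Real.log N ^ (A + 2 * C) ≤ D * (9 * X) ^ 2 * (2 ^ (A + 2 * C) / Y ^ (A + 2 * C)) := by
            calc D * (N : ℝ) ^ 2 / Real.log N ^ (A + 2 * C) = D * (N : ℝ) ^ 2 * (1 / Real.log N ^ (A + 2 * C)) := by ring
              _ ≤ _ := by rw [hX]; gcongr
          gcongr
      _ = K2 ^ 2 * (D * 81 * 2 ^ (A + 2 * C)) / Y ^ A * (X * z) ^ 2 := by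
          rw [pow_add Y A (2 * C)]
          field_simp
          ring
      _ = K2 ^ 2 * (D * 81 * 2 ^ (A + 2 * C)) / Y ^ A := by rw [hXz]; ring
  have herr : 2 * (K1 * z) ^ 2 * L ≤ 2 * K1 ^ 2 * (A + C).factorial / Y ^ A := by
    have a1 := Real.pow_div_factorial_le_exp Y hY0.le (A + C)
    rw [div_le_iff₀ (by positivity)] at a1
    have a2 : L ≤ X * Y ^ C := by
      rw [hX]
      refine hLle.trans ?_
      have : Real.exp (Y / 2) ≤ Real.exp Y := Real.exp_le_exp.2 (by linarith)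
      gcongr
    have a3 : z * Y ^ (A + C) ≤ (A + C).factorial := by
      calc z * Y ^ (A + C) ≤ z * (Real.exp Y * (A + C).factorial) := by gcongr
        _ = (X * z) * (A + C).factorial := by rw [hX]; ring
        _ = (A + C).factorial := by rw [hXz, one_mul]
    rw [le_div_iff₀ (by positivity)]
    calc 2 * (K1 * z) ^ 2 * L * Y ^ A ≤ 2 * (K1 * z) ^ 2 * (X * Y ^ C) * Y ^ A := by gcongr
      _ = 2 * K1 ^ 2 * (X * z) * (z * Y ^ (A + C)) := by rw [pow_add]; ring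
      _ ≤ 2 * K1 ^ 2 * 1 * (A + C).factorial := by rw [hXz]; gcongr
      _ = 2 * K1 ^ 2 * (A + C).factorial := by ring
  have hmono : ∫ η in x..(x + L), ‖∫ y in y1..y2, hw b y * er (-η) y‖ ^ 2 ≤
      ∫ η in x..(x + L), (2 * ‖∑ n ∈ Ioc N (N + k), Wn b n η * (pw n * er (-η) (Real.log n))‖ ^ 2 + 2 * (K1 * z) ^ 2) := by
    rw [intervalIntegral.integral_of_le (by linarith), intervalIntegral.integral_of_le (by linarith)]
    refine integral_mono_of_nonneg (Filter.Eventually.of_forall fun η => by positivity) ?_ ?_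
    · have hc' : Continuous fun η => (2 * ‖∑ n ∈ Ioc N (N + k), Wn b n η * (pw n * er (-η) (Real.log n))‖ ^ 2 + 2 * (K1 * z) ^ 2) := by
        have := cont_WS b N (N + k)
        exact (continuous_const.mul (this.norm.pow 2)).add continuous_const
      exact (hc'.intervalIntegrable x (x + L)).1
    · refine Filter.Eventually.of_forall fun η => ?_
      show ‖∫ y in y1..y2, hw b y * er (-η) y‖ ^ 2 ≤
        2 * ‖∑ n ∈ Ioc N (N + k), Wn b n η * (pw n * er (-η) (Real.log n))‖ ^ 2 + 2 * (K1 * z) ^ 2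
      have hdec := hw_dec b Y y1 y2 η hY' h1 h12 h2 p k N hN hp1 hp2.le hq1 hq2
      rw [← hK1, ← hz] at hdec
      have a1 := norm_le_norm_add_norm_sub' (∫ y in y1..y2, hw b y * er (-η) y)
        (∑ n ∈ Ioc N (N + k), Wn b n η * (pw n * er (-η) (Real.log n)))
      have a2 : ‖∫ y in y1..y2, hw b y * er (-η) y‖ ≤
          ‖∑ n ∈ Ioc N (N + k), Wn b n η * (pw n * er (-η) (Real.log n))‖ + K1 * z := by linarith
      calc ‖∫ y in y1..y2, hw b y * er (-η) y‖ ^ 2 ≤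
          (‖∑ n ∈ Ioc N (N + k), Wn b n η * (pw n * er (-η) (Real.log n))‖ + K1 * z) ^ 2 := by gcongr
        _ ≤ _ := by
          nlinarith [sq_nonneg (‖∑ n ∈ Ioc N (N + k), Wn b n η * (pw n * er (-η) (Real.log n))‖ - K1 * z)]
  have hi : IntervalIntegrable (fun η => ‖∑ n ∈ Ioc N (N + k), Wn b n η * (pw n * er (-η) (Real.log n))‖ ^ 2) volume x (x + L) :=
    ((cont_WS b N (N + k)).norm.pow 2).intervalIntegrable _ _
  rw [intervalIntegral.integral_add (hi.const_mul 2) intervalIntegrable_const,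
    intervalIntegral.integral_const_mul, intervalIntegral.integral_const] at hmono
  simp only [smul_eq_mul, add_sub_cancel_left] at hmono
  refine hmono.trans ?_
  rw [add_div]
  refine add_le_add ?_ ?_
  · rw [mul_div_assoc]
    exact mul_le_mul_of_nonneg_left hmain (by norm_num)
  · calc L * (2 * (K1 * z) ^ 2) = 2 * (K1 * z) ^ 2 * L := by ring
      _ ≤ _ := herr

end Pool.Agent.L7h37.MW
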