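import Pool.Agent.L7h88.MW.Stm
import Pool.Agent.N539.T.FD

set_option autoImplicit false

/-! # Project MW (helper88), parts FTL, FTT (helper37): step functions on the logarithmic scale -/

namespace Pool.Agent.L7h37.MW

open Finset MeasureTheory Filter Topology
open scoped ENNReal
open Pool.Agent.H376R2.MR (er)
open Pool.Agent.N798.T (vl)
open Pool.Agent.N539.T (nrm_er cont_er ea hd_ea nrm_ea dens_bd)
open Pool.Agent.L7h88.MW

/-- primitive of `er η` -/
noncomputable def Ge (η x : ℝ) : ℂ := ∫ y in (0:ℝ)..x, er η y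

theorem Ge_sub (η u v : ℝ) : ∫ y in u..v, er η y = Ge η v - Ge η u := by
  unfold Ge
  rw [intervalIntegral.integral_interval_sub_left ((cont_er η).intervalIntegrable _ _)
    ((cont_er η).intervalIntegrable _ _)]

theorem Ge_le (η u v : ℝ) : ‖Ge η v - Ge η u‖ ≤ |v - u| := by
  rw [← Ge_sub]
  have h := intervalIntegral.norm_integral_le_of_norm_le_const (a := u) (b := v) (C := 1) (f := er η)
    (fun x _ => (nrm_er η x).le)
  simpa using h

theorem ii_stepK (F : ℤ → ℂ) (K : ℝ) (hF : ∀ n, ‖F n‖ ≤ K) (η p q : ℝ) :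
    IntervalIntegrable (fun y => F ⌊Real.exp y⌋ * er η y) volume p q := by
  have hm : Measurable (fun y : ℝ => F ⌊Real.exp y⌋ * er η y) := by
    refine Measurable.mul ?_ (cont_er η).measurable
    exact (measurable_from_top (f := F)).comp (Int.measurable_floor.comp Real.measurable_exp)
  have hc : IntervalIntegrable (fun _ : ℝ => K) volume p q := intervalIntegrable_const
  refine hc.mono_fun hm.aestronglyMeasurable ?_
  refine Filter.Eventually.of_forall fun y => ?_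
  simp only [norm_mul, nrm_er, mul_one]
  exact (hF _).trans (le_abs_self _)

/-- no cut -/
theorem nocut (F : ℤ → ℂ) (η u v : ℝ) (huv : u ≤ v) (m : ℤ) (h1 : (m : ℝ) ≤ Real.exp u)
    (h2 : Real.exp v ≤ m + 1) :
    ∫ y in u..v, F ⌊Real.exp y⌋ * er η y = F m * (Ge η v - Ge η u) := by
  have hcg : ∫ y in u..v, F ⌊Real.exp y⌋ * er η y = ∫ y in u..v, F m * er η y := by
    rw [intervalIntegral.integral_of_le huv, intervalIntegral.integral_of_le huv,
      integral_Ioc_eq_integral_Ioo, integral_Ioc_eq_integral_Ioo]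
    refine setIntegral_congr_fun measurableSet_Ioo fun y hy => ?_
    have e1 : (m : ℝ) ≤ Real.exp y := h1.trans (Real.exp_le_exp.2 hy.1.le)
    have e2 : Real.exp y < m + 1 := lt_of_lt_of_le (Real.exp_lt_exp.2 hy.2) h2
    have e3 : ⌊Real.exp y⌋ = m := Int.floor_eq_iff.2 ⟨e1, e2⟩
    simp only [e3]
  rw [hcg, intervalIntegral.integral_const_mul, Ge_sub]

/-- Abel summed form -/
theorem abel_form' (G : ℝ → ℂ) (F : ℤ → ℂ) (K : ℝ) (hF : ∀ n, ‖F n‖ ≤ K) (η y1 : ℝ)
    (hG : ∀ u v, Ge η v - Ge η u = G v - G u) (p : ℕ) (h1 : (p : ℝ) ≤ Real.exp y1)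
    (h2 : Real.exp y1 ≤ p + 1) : ∀ (k : ℕ) (y : ℝ), y1 ≤ y → ((p : ℝ) + k ≤ Real.exp y) → Real.exp y ≤ p + k + 1 →
    ∫ t in y1..y, F ⌊Real.exp t⌋ * er η t =
      ∑ m ∈ Ioc p (p + k), (F ((m : ℤ) - 1) - F m) * G (Real.log m) + F ((p : ℤ) + k) * G y - F p * G y1 := by
  intro k
  induction k with
  | zero =>
    intro y hy h3 h4
    have := nocut F η y1 y hy p (by exact_mod_cast h1) (by push_cast at h4 ⊢; linarith)
    rw [this, hG]
    simp
    ring
  | succ k ih =>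
    intro y hy h3 h4
    have hpos : (0 : ℝ) < p + k + 1 := by positivity
    set c := Real.log (p + k + 1) with hc
    have hec : Real.exp c = p + k + 1 := Real.exp_log hpos
    have hk0 : (0 : ℝ) ≤ k := Nat.cast_nonneg k
    have hy1c : y1 ≤ c := by rw [← Real.exp_le_exp, hec]; linarith
    have hcy : c ≤ y := by rw [← Real.exp_le_exp, hec]; push_cast at h3; linarith
    have i1 := ih c hy1c (by rw [hec]; linarith) (by rw [hec])
    have i2 := nocut F η c y hcy ((p : ℤ) + k + 1) (by rw [hec]; push_cast; exact le_rfl)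
      (by push_cast at h4 ⊢; linarith)
    rw [← intervalIntegral.integral_add_adjacent_intervals (ii_stepK F K hF η y1 c) (ii_stepK F K hF η c y), i1, i2, hG]
    rw [← add_assoc p k 1, Finset.sum_Ioc_succ_top (by omega)]
    have e1 : (((p + k + 1 : ℕ) : ℤ) - 1) = (p : ℤ) + k := by push_cast; ring
    have e2 : ((p + k + 1 : ℕ) : ℤ) = (p : ℤ) + k + 1 := by push_cast; ring
    have e3 : ((p + k + 1 : ℕ) : ℝ) = (p : ℝ) + k + 1 := by push_cast; ring
    have e4 : (p : ℤ) + ((k + 1 : ℕ) : ℤ) = (p : ℤ) + k + 1 := by push_cast; ring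
    rw [e1, e2, e3, e4, ← hc]
    ring

theorem abel_form (F : ℤ → ℂ) (K : ℝ) (hF : ∀ n, ‖F n‖ ≤ K) (η y1 : ℝ) (p : ℕ) (h1 : (p : ℝ) ≤ Real.exp y1)
    (h2 : Real.exp y1 ≤ p + 1) : ∀ (k : ℕ) (y : ℝ), y1 ≤ y → ((p : ℝ) + k ≤ Real.exp y) → Real.exp y ≤ p + k + 1 →
    ∫ t in y1..y, F ⌊Real.exp t⌋ * er η t =
      ∑ m ∈ Ioc p (p + k), (F ((m : ℤ) - 1) - F m) * Ge η (Real.log m) + F ((p : ℤ) + k) * Ge η y - F p * Ge η y1 :=
  abel_form' (Ge η) F K hF η y1 (fun _ _ => rfl) p h1 h2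

/-- the form with complete pieces -/
theorem piece_form (F : ℤ → ℂ) (K : ℝ) (hF : ∀ n, ‖F n‖ ≤ K) (η y1 y : ℝ) (p : ℕ) (hy : y1 ≤ y) (h1 : (p : ℝ) ≤ Real.exp y1)
    (h2 : Real.exp y1 ≤ p + 1) (k : ℕ) (h3 : (p : ℝ) + k ≤ Real.exp y) (h4 : Real.exp y ≤ p + k + 1) :
    ∫ t in y1..y, F ⌊Real.exp t⌋ * er η t =
      ∑ i ∈ range k, F ((p : ℤ) + i) * (Ge η (Real.log (p + i + 1)) - Ge η (Real.log (p + i))) +
        F ((p : ℤ) + k) * (Ge η y - Ge η (Real.log (p + k))) - F p * (Ge η y1 - Ge η (Real.log p)) := by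
  rw [abel_form F K hF η y1 p h1 h2 k y hy h3 h4]
  have key : ∀ k : ℕ, ∑ m ∈ Ioc p (p + k), (F ((m : ℤ) - 1) - F m) * Ge η (Real.log m) =
      ∑ i ∈ range k, F ((p : ℤ) + i) * (Ge η (Real.log (p + i + 1)) - Ge η (Real.log (p + i))) -
        F ((p : ℤ) + k) * Ge η (Real.log (p + k)) + F p * Ge η (Real.log p) := by
    intro k
    induction k with
    | zero => simp
    | succ k ih =>
      rw [← add_assoc p k 1, Finset.sum_Ioc_succ_top (by omega), ih, Finset.sum_range_succ]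
      have e1 : (((p + k + 1 : ℕ) : ℤ) - 1) = (p : ℤ) + k := by push_cast; ring
      have e2 : ((p + k + 1 : ℕ) : ℤ) = (p : ℤ) + k + 1 := by push_cast; ring
      have e3 : ((p + k + 1 : ℕ) : ℝ) = (p : ℝ) + k + 1 := by push_cast; ring
      have e4 : (p : ℤ) + ((k + 1 : ℕ) : ℤ) = (p : ℤ) + k + 1 := by push_cast; ring
      have e5 : (p : ℝ) + ((k + 1 : ℕ) : ℝ) = (p : ℝ) + k + 1 := by push_cast; ring
      rw [e1, e2, e3, e4, e5]
      ring
  rw [key k]
  ring

end Pool.Agent.L7h37.MW
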