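import Pool.Agent.L7h37.MW.Step

set_option autoImplicit false

/-! # Project MW (helper88), part FTL (helper37): the weights -/

namespace Pool.Agent.L7h37.MW

open Finset MeasureTheory Filter Topology
open scoped ENNReal
open Pool.Agent.H376R2.MR (er)
open Pool.Agent.N798.T (vl)
open Pool.Agent.N539.T (nrm_er cont_er ea hd_ea nrm_ea dens_bd hd_er)
open Pool.Agent.L7h88.MW

theorem er_add (η a t : ℝ) : er η (a + t) = er η a * er η t := by
  unfold er
  rw [← Complex.exp_add]
  congr 1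
  push_cast
  ring

theorem er_Ge (η a l : ℝ) : er η a * Ge η l = Ge η (a + l) - Ge η a := by
  rw [← Ge_sub]
  unfold Ge
  rw [← intervalIntegral.integral_const_mul]
  have : ∀ t, er η a * er η t = er η (t + a) := fun t => by rw [add_comm, er_add]
  simp_rw [this]
  rw [intervalIntegral.integral_comp_add_right]
  simp [add_comm]

theorem er_lip (η u v : ℝ) : ‖er η v - er η u‖ ≤ |η| * |v - u| := by
  have h : ∫ y in u..v, (η : ℂ) * Complex.I * er η y = er η v - er η u :=
    intervalIntegral.integral_eq_sub_of_hasDerivAt (fun x _ => hd_er η x)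
      ((continuous_const.mul (cont_er η)).intervalIntegrable _ _)
  rw [← h, intervalIntegral.integral_const_mul, Ge_sub, norm_mul, norm_mul, Complex.norm_I, mul_one,
    Complex.norm_real, Real.norm_eq_abs]
  exact mul_le_mul_of_nonneg_left (Ge_le η u v) (abs_nonneg _)

noncomputable def el (m : ℝ) : ℝ := Real.log (m + 1) - Real.log m

theorem el_nonneg {m : ℝ} (hm : 0 < m) : 0 ≤ el m := by
  unfold el
  have := Real.log_le_log hm (by linarith : m ≤ m + 1)
  linarith

theorem el_sub {x y : ℝ} (hx : 0 < x) (hxy : x ≤ y) : 0 ≤ el x - el y ∧ el x - el y ≤ 1 / x - 1 / y := by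
  have hy : 0 < y := lt_of_lt_of_le hx hxy
  have e1 : el x = Real.log (1 + 1 / x) := by
    unfold el
    rw [← Real.log_div (by positivity) hx.ne']
    congr 1
    field_simp
  have e2 : el y = Real.log (1 + 1 / y) := by
    unfold el
    rw [← Real.log_div (by positivity) hy.ne']
    congr 1
    field_simp
  have hu : 0 < 1 + 1 / x := by positivity
  have hv : 0 < 1 + 1 / y := by positivity
  have hle : 1 / y ≤ 1 / x := one_div_le_one_div_of_le hx hxy
  rw [e1, e2]
  refine ⟨sub_nonneg.2 (Real.log_le_log hv (by linarith)), ?_⟩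
  rw [← Real.log_div hu.ne' hv.ne']
  refine (Real.log_le_sub_one_of_pos (by positivity)).trans ?_
  have : (1 + 1 / x) / (1 + 1 / y) - 1 = (1 / x - 1 / y) / (1 + 1 / y) := by
    rw [div_sub_one hv.ne']
    congr 1
    ring
  rw [this]
  refine div_le_self (by linarith) ?_
  have : 0 < 1 / y := by positivity
  linarith

theorem el_le {m : ℝ} (hm : 0 < m) : el m ≤ 1 / m := by
  unfold el
  rw [← Real.log_div (by positivity) hm.ne']
  refine (Real.log_le_sub_one_of_pos (by positivity)).trans (le_of_eq ?_)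
  field_simp
  ring

theorem el_abs {x y : ℝ} (hx : 0 < x) (hy : 0 < y) : |el x - el y| ≤ |y - x| / (x * y) := by
  rcases le_total x y with h | h
  · have := el_sub hx h
    rw [abs_of_nonneg this.1, abs_of_nonneg (by linarith)]
    refine this.2.trans (le_of_eq ?_)
    field_simp
  · have := el_sub hy h
    rw [abs_sub_comm, abs_of_nonneg this.1, abs_sub_comm, abs_of_nonneg (by linarith)]
    refine this.2.trans (le_of_eq ?_)
    field_simp

/-- the weights -/
noncomputable def Wn (b : ℤ) (n : ℕ) (η : ℝ) : ℂ :=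
  er (-η) (Real.log ((n : ℝ) - b) - Real.log n) * Ge (-η) (el ((n : ℝ) - b))

theorem cont_Wn (b : ℤ) (n : ℕ) : Continuous (Wn b n) := by
  unfold Wn Ge
  refine Continuous.mul ?_ ?_
  · unfold er; fun_prop
  · refine intervalIntegral.continuous_parametric_intervalIntegral_of_continuous' ?_ _ _
    unfold er Function.uncurry
    fun_prop

theorem Ge_norm (η l : ℝ) : ‖Ge η l‖ ≤ |l| := by
  have := Ge_le η 0 l
  have h0 : Ge η 0 = 0 := by unfold Ge; simp
  rw [h0, sub_zero, sub_zero] at this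
  exact this

theorem Wn_le (b : ℤ) (n : ℕ) (η : ℝ) (h : 0 < (n : ℝ) - b) : ‖Wn b n η‖ ≤ 1 / ((n : ℝ) - b) := by
  unfold Wn
  rw [norm_mul, nrm_er, one_mul]
  refine (Ge_norm _ _).trans ?_
  rw [abs_of_nonneg (el_nonneg h)]
  exact el_le h

theorem Wn_diff (b : ℤ) (n : ℕ) (η M : ℝ) (hM : 0 < M) (hn : M ≤ n) (hb : M ≤ (n : ℝ) - b) :
    ‖Wn b (n + 1) η - Wn b n η‖ ≤ |η| * (|(b : ℝ)| / M ^ 2) * (1 / M) + 1 / M ^ 2 := by
  have hn0 : (0 : ℝ) < n := lt_of_lt_of_le hM hn
  have hb0 : (0 : ℝ) < (n : ℝ) - b := lt_of_lt_of_le hM hb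
  obtain ⟨m, hm⟩ : ∃ m : ℝ, m = (n : ℝ) - b := ⟨_, rfl⟩
  have e0 : ((n + 1 : ℕ) : ℝ) - b = m + 1 := by push_cast; rw [hm]; ring
  unfold Wn
  rw [e0, ← hm]
  rw [← hm] at hb hb0
  obtain ⟨v, hv⟩ : ∃ v : ℝ, v = Real.log m - Real.log n := ⟨_, rfl⟩
  obtain ⟨v', hv'⟩ : ∃ v : ℝ, v = Real.log (m + 1) - Real.log ((n + 1 : ℕ) : ℝ) := ⟨_, rfl⟩
  rw [← hv, ← hv']
  have e1 : er (-η) v' * Ge (-η) (el (m + 1)) - er (-η) v * Ge (-η) (el m) =
      (er (-η) v' - er (-η) v) * Ge (-η) (el (m + 1)) + er (-η) v * (Ge (-η) (el (m + 1)) - Ge (-η) (el m)) := by ring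
  rw [e1]
  have hvv : v' - v = el m - el n := by
    rw [hv, hv']
    unfold el
    push_cast
    ring
  have hvv' : |v' - v| ≤ |(b : ℝ)| / M ^ 2 := by
    rw [hvv]
    refine (el_abs hb0 hn0).trans ?_
    have : (n : ℝ) - m = b := by rw [hm]; ring
    rw [this, pow_two]
    gcongr
  have h1 : ‖er (-η) v' - er (-η) v‖ ≤ |η| * (|(b : ℝ)| / M ^ 2) := by
    refine (er_lip _ _ _).trans ?_
    rw [abs_neg]
    gcongr
  have h2 : ‖Ge (-η) (el (m + 1))‖ ≤ 1 / M := by
    refine (Ge_norm _ _).trans ?_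
    rw [abs_of_nonneg (el_nonneg (by linarith))]
    refine (el_le (by linarith)).trans ?_
    gcongr
    linarith
  have h3 : ‖Ge (-η) (el (m + 1)) - Ge (-η) (el m)‖ ≤ 1 / M ^ 2 := by
    refine (Ge_le _ _ _).trans ?_
    rw [abs_sub_comm]
    have := el_sub hb0 (by linarith : m ≤ m + 1)
    rw [abs_of_nonneg this.1]
    refine this.2.trans ?_
    have e : 1 / m - 1 / (m + 1) = 1 / (m * (m + 1)) := by
      field_simp
      ring
    rw [e, pow_two]
    gcongr
    linarith
  refine (norm_add_le _ _).trans ?_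
  rw [norm_mul, norm_mul, nrm_er, one_mul]
  gcongr

theorem Wn_er (b : ℤ) (n : ℕ) (η : ℝ) : Wn b n η * er (-η) (Real.log n) =
    Ge (-η) (Real.log ((n : ℝ) - b + 1)) - Ge (-η) (Real.log ((n : ℝ) - b)) := by
  unfold Wn
  have : er (-η) (Real.log ((n : ℝ) - b) - Real.log n) * Ge (-η) (el ((n : ℝ) - b)) * er (-η) (Real.log n) =
      (er (-η) (Real.log ((n : ℝ) - b) - Real.log n) * er (-η) (Real.log n)) * Ge (-η) (el ((n : ℝ) - b)) := by ring
  rw [this, ← er_add, sub_add_cancel, er_Ge]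
  unfold el
  congr 2
  ring

theorem sum_eq (b : ℤ) (η : ℝ) (p N : ℕ) (hN : (N : ℤ) = p + b - 1) : ∀ k : ℕ,
    ∑ n ∈ Ioc N (N + k), Wn b n η * (pw n * er (-η) (Real.log n)) =
      ∑ i ∈ range k, pw ((p : ℤ) + i + b).toNat * (Ge (-η) (Real.log (p + i + 1)) - Ge (-η) (Real.log (p + i))) := by
  intro k
  induction k with
  | zero => simp
  | succ k ih =>
    rw [← add_assoc N k 1, Finset.sum_Ioc_succ_top (by omega), ih, Finset.sum_range_succ]
    congr 1
    have e1 : (((N + k + 1 : ℕ) : ℝ)) - b = p + k := by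
      have : (N : ℝ) = p + b - 1 := by exact_mod_cast hN
      push_cast
      rw [this]
      ring
    have e2 : ((p : ℤ) + k + b).toNat = N + k + 1 := by omega
    rw [e2]
    have e3 : Wn b (N + k + 1) η * (pw (N + k + 1) * er (-η) (Real.log ((N + k + 1 : ℕ) : ℝ))) =
        pw (N + k + 1) * (Wn b (N + k + 1) η * er (-η) (Real.log ((N + k + 1 : ℕ) : ℝ))) := by ring
    rw [e3, Wn_er, e1]

theorem pw_le (n : ℕ) : ‖pw n‖ ≤ 3 := by
  unfold pw
  have h1 : ‖(if n.Prime then 1 else 0 : ℂ)‖ ≤ 1 := by split_ifs <;> simp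
  have h2 : ‖((1 / Real.log n : ℝ) : ℂ)‖ ≤ 2 := by
    rw [Complex.norm_real, Real.norm_eq_abs]
    rcases Nat.lt_or_ge n 2 with h | h
    · interval_cases n <;> simp
    · have : Real.log 2 ≤ Real.log n := Real.log_le_log (by norm_num) (by exact_mod_cast h)
      have h3 := Real.log_two_gt_d9
      have h4 : 0 < Real.log n := by linarith
      rw [abs_of_pos (by positivity), div_le_iff₀ h4]
      linarith
  refine (norm_sub_le _ _).trans (by linarith)

end Pool.Agent.L7h37.MW
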